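import Pool.Agent.H630GI.Rand

/-! Parity systems as pairs of graphs whose clauses are switched by single edges (helper329). -/

open scoped Classical
open Finset

set_option autoImplicit false

namespace Pool.Agent.Q329.GF

open H630VC H630XR
open H630GI (bz par vl par_xor oddSat_iff dg pad)

variable {b g : ℕ}

abbrev C4 (b : ℕ) : Type := Cl (Fin b) 4

/-- the vertices: values of the variables, clauses with the values of their literals, two sets of
`g` vertices and one set of `g + 1` vertices for each clause -/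
abbrev Vx (b g : ℕ) : Type :=
  (Fin b × Bool) ⊕ ((C4 b × (Fin 4 → Bool)) ⊕ ((C4 b × Bool × Fin g) ⊕ (C4 b × Option (Fin g))))

/-- the edges -/
def rel (w : C4 b → ZMod 2) (P : C4 b → Bool → Fin g → Option (Fin g) → Prop) :
    Vx b g → Vx b g → Prop
  | .inl p, .inr (.inl q) => (∃ j, (q.1 j).1 = p.1) ∧ ∀ j, (q.1 j).1 = p.1 → q.2 j = p.2
  | .inr (.inl q), .inr (.inr (.inl r)) => r.1 = q.1 ∧ bz r.2.1 = par q.2 + w q.1
  | .inr (.inr (.inl r)), .inr (.inr (.inr t)) => t.1 = r.1 ∧ P r.1 r.2.1 r.2.2 t.2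
  | _, _ => False

/-- the graph -/
def gr (w : C4 b → ZMod 2) (P : C4 b → Bool → Fin g → Option (Fin g) → Prop) :
    SimpleGraph (Vx b g) := SimpleGraph.fromRel (rel w P)

/-- the colours -/
abbrev Co (b : ℕ) : Type := Fin b ⊕ (C4 b × Fin 3)

/-- the colour of a vertex -/
def cl : Vx b g → Co b
  | .inl p => .inl p.1
  | .inr (.inl q) => .inr (q.1, 0)
  | .inr (.inr (.inl r)) => .inr (r.1, 1)
  | .inr (.inr (.inr t)) => .inr (t.1, 2)

/-- the colour as a number -/
noncomputable def tc (x : Vx b g) : ℕ := (Fintype.equivFin (Co b) (cl x)).val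

theorem tc_lt (x : Vx b g) : tc x < Fintype.card (Co b) := (Fintype.equivFin (Co b) (cl x)).2

theorem tc_inj {x y : Vx b g} (h : tc x = tc y) : cl x = cl y :=
  (Fintype.equivFin (Co b)).injective (Fin.ext h)

/-- the bound for the degrees -/
def db (b g : ℕ) : ℕ := 256 * b ^ 4 + 2 * b + 3 * g + 17

theorem card_c4 (b : ℕ) : Fintype.card (C4 b) = 16 * b ^ 4 := by rw [card_cl]; ring

theorem dg_gr (w : C4 b → ZMod 2) (P : C4 b → Bool → Fin g → Option (Fin g) → Prop)
    (x : Vx b g) : dg (gr w P) x ≤ db b g := by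
  have hcl : ∀ (c : C4 b) (x : Vx b g), (∃ i, cl x = .inr (c, i)) →
      (univ.filter fun y => (gr w P).Adj x y) ⊆
      (univ : Finset ((Fin b × Bool) ⊕ ((Fin 4 → Bool) ⊕ ((Bool × Fin g) ⊕ Option (Fin g))))).image
        (fun z => match z with
          | .inl p => (.inl p : Vx b g)
          | .inr (.inl a) => .inr (.inl (c, a))
          | .inr (.inr (.inl r)) => .inr (.inr (.inl (c, r)))
          | .inr (.inr (.inr t)) => .inr (.inr (.inr (c, t)))) := by
    intro c x hx y hy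
    have hy := (mem_filter.1 hy).2
    unfold gr at hy
    rw [SimpleGraph.fromRel_adj] at hy
    obtain ⟨-, hy⟩ := hy
    obtain ⟨i, hi⟩ := hx
    rw [mem_image]
    rcases x with p | ⟨c', a⟩ | ⟨c', r⟩ | ⟨c', t⟩ <;> rcases y with p' | ⟨c'', a'⟩ | ⟨c'', r'⟩ | ⟨c'', t'⟩ <;>
      simp only [rel, or_false, false_or, cl, Sum.inr.injEq, Prod.mk.injEq, reduceCtorEq] at hy hi
    · exact ⟨.inl p', mem_univ _, rfl⟩
    · exact ⟨.inr (.inr (.inl r')), mem_univ _, by simp [← hi.1, hy.1]⟩
    · exact ⟨.inr (.inl a'), mem_univ _, by simp [← hi.1, hy.1]⟩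
    · exact ⟨.inr (.inr (.inr t')), mem_univ _, by simp [← hi.1, hy.1]⟩
    · exact ⟨.inr (.inr (.inl r')), mem_univ _, by simp [← hi.1, hy.1]⟩
  have hcard : ∀ (c : C4 b) (x : Vx b g), (∃ i, cl x = .inr (c, i)) →
      dg (gr w P) x ≤ db b g := by
    intro c x hx
    refine (card_le_card (hcl c x hx)).trans (card_image_le.trans ?_)
    rw [card_univ]
    simp only [Fintype.card_sum, Fintype.card_prod, Fintype.card_fun, Fintype.card_bool,
      Fintype.card_fin, Fintype.card_option]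
    unfold db
    omega
  rcases x with p | ⟨c, a⟩ | ⟨c, r⟩ | ⟨c, t⟩
  · have h : (univ.filter fun y => (gr w P).Adj (.inl p) y) ⊆
        (univ : Finset (C4 b × (Fin 4 → Bool))).image fun z => (.inr (.inl z) : Vx b g) := by
      intro y hy
      have hy := (mem_filter.1 hy).2
      unfold gr at hy
      rw [SimpleGraph.fromRel_adj] at hy
      obtain ⟨-, hy⟩ := hy
      rw [mem_image]
      rcases y with p' | q | r | t <;> simp only [rel, or_false, false_or, or_self] at hy
      exact ⟨q, mem_univ _, rfl⟩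
    refine (card_le_card h).trans (card_image_le.trans ?_)
    rw [card_univ, Fintype.card_prod, card_c4, Fintype.card_fun, Fintype.card_bool,
      Fintype.card_fin]
    unfold db
    omega
  · exact hcard c _ ⟨0, rfl⟩
  · exact hcard c _ ⟨1, rfl⟩
  · exact hcard c _ ⟨2, rfl⟩

/-- isomorphisms give solutions -/
theorem sat_of_hom (P P' : C4 b → Bool → Fin g → Option (Fin g) → Prop)
    (ψ : Vx b g → Vx b g) (hc : ∀ x, cl (ψ x) = cl x)
    (h : ∀ x x', (gr 0 P).Adj x x' → (gr vl P').Adj (ψ x) (ψ x')) :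
    ∃ z : Fin b → Bool, ∀ c, (∃ u v, P c false u v) → (∀ e u v, P' c e u v → e = false) →
      OddSat z c := by
  have h1 : ∀ v : Fin b, ∃ α : Bool, ψ (.inl (v, false)) = .inl (v, α) := by
    intro v
    have h2 := hc (.inl (v, false))
    rcases h3 : ψ (.inl (v, false)) with ⟨v', α⟩ | ⟨c', a'⟩ | ⟨c', r⟩ | ⟨c', t⟩ <;> rw [h3] at h2 <;>
      simp only [cl, Sum.inl.injEq, reduceCtorEq] at h2
    exact ⟨α, by rw [h2]⟩
  choose z hz using h1
  refine ⟨z, fun c hP hP' => ?_⟩
  obtain ⟨u, v, huv⟩ := hP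
  obtain ⟨e, u', he⟩ : ∃ e u', ψ (.inr (.inr (.inl (c, false, u)))) =
      .inr (.inr (.inl (c, e, u'))) := by
    have h2 := hc (.inr (.inr (.inl (c, false, u))))
    rcases h3 : ψ (.inr (.inr (.inl (c, false, u)))) with ⟨v', α⟩ | ⟨c', a'⟩ | ⟨c', e', r⟩ | ⟨c', t⟩ <;>
      rw [h3] at h2 <;> simp [cl] at h2
    exact ⟨e', r, by rw [h2]⟩
  obtain ⟨v', hv⟩ : ∃ v', ψ (.inr (.inr (.inr (c, v)))) = .inr (.inr (.inr (c, v'))) := by
    have h2 := hc (.inr (.inr (.inr (c, v))))
    rcases h3 : ψ (.inr (.inr (.inr (c, v)))) with ⟨v', α⟩ | ⟨c', a'⟩ | ⟨c', e', r⟩ | ⟨c', t⟩ <;>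
      rw [h3] at h2 <;> simp [cl] at h2
    exact ⟨t, by rw [h2]⟩
  obtain ⟨a', ha⟩ : ∃ a', ψ (.inr (.inl (c, fun _ => false))) = .inr (.inl (c, a')) := by
    have h2 := hc (.inr (.inl (c, fun _ => false)))
    rcases h3 : ψ (.inr (.inl (c, fun _ => false))) with ⟨v', α⟩ | ⟨c', a'⟩ | ⟨c', e', r⟩ | ⟨c', t⟩ <;>
      rw [h3] at h2 <;> simp [cl] at h2
    exact ⟨a', by rw [h2]⟩
  have h2 : e = false := by
    have h3 : (gr 0 P).Adj (.inr (.inr (.inl (c, false, u)))) (.inr (.inr (.inr (c, v)))) := by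
      unfold gr
      rw [SimpleGraph.fromRel_adj]
      exact ⟨by simp, Or.inl ⟨rfl, huv⟩⟩
    have h4 := h _ _ h3
    rw [he, hv] at h4
    unfold gr at h4
    rw [SimpleGraph.fromRel_adj] at h4
    simp only [rel, or_false] at h4
    exact hP' _ _ _ h4.2.2
  have h5 : par a' = vl c := by
    have h3 : (gr 0 P).Adj (.inr (.inl (c, fun _ => false))) (.inr (.inr (.inl (c, false, u)))) := by
      unfold gr
      rw [SimpleGraph.fromRel_adj]
      refine ⟨by simp, Or.inl ⟨rfl, ?_⟩⟩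
      simp [par, bz]
    have h4 := h _ _ h3
    rw [he, ha] at h4
    unfold gr at h4
    rw [SimpleGraph.fromRel_adj] at h4
    simp only [rel, or_false] at h4
    have h6 := h4.2.2
    rw [h2] at h6
    have h7 : ∀ p q : ZMod 2, 0 = p + q → p = q := by decide
    exact h7 _ _ (by simpa [bz] using h6)
  have h6 : ∀ j, a' j = z (c j).1 := by
    intro j
    have h3 : (gr 0 P).Adj (.inl ((c j).1, false)) (.inr (.inl (c, fun _ => false))) := by
      unfold gr
      rw [SimpleGraph.fromRel_adj]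
      exact ⟨by simp, Or.inl ⟨⟨j, rfl⟩, fun _ _ => rfl⟩⟩
    have h4 := h _ _ h3
    rw [hz, ha] at h4
    unfold gr at h4
    rw [SimpleGraph.fromRel_adj] at h4
    simp only [rel, or_false] at h4
    exact h4.2.2 j rfl
  rw [oddSat_iff]
  have h7 : (fun j => z (c j).1) = a' := funext fun j => (h6 j).symm
  rw [h7]
  exact h5

/-- permutations of pairs -/
def sh (s : Bool) (π : Bool → Equiv.Perm (Fin g)) : Equiv.Perm (Bool × Fin g) where
  toFun x := (xor x.1 s, π x.1 x.2)
  invFun x := (xor x.1 s, (π (xor x.1 s)).symm x.2)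
  left_inv := by
    rintro ⟨e, u⟩
    simp
  right_inv := by
    rintro ⟨e, u⟩
    simp

/-- solutions give isomorphisms -/
theorem iso_of_sat (P P' : C4 b → Bool → Fin g → Option (Fin g) → Prop) (z : Fin b → Bool)
    (h : ∀ c : C4 b, ∀ s : Bool, bz s = par (fun j => z (c j).1) + vl c →
      ∃ (π : Bool → Equiv.Perm (Fin g)) (σ : Equiv.Perm (Option (Fin g))),
        ∀ e u v, P' c (xor e s) (π e u) (σ v) ↔ P c e u v) :
    ∃ ψ : Vx b g ≃ Vx b g, (∀ x, cl (ψ x) = cl x) ∧
      ∀ x x', (gr vl P').Adj (ψ x) (ψ x') ↔ (gr 0 P).Adj x x' := by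
  have hs : ∀ c : C4 b, ∃ s : Bool, bz s = par (fun j => z (c j).1) + vl c := by
    intro c
    have : ∀ p : ZMod 2, ∃ s : Bool, bz s = p := by decide
    exact this _
  choose s hs using hs
  choose π σ hπ using fun c => h c (s c) (hs c)
  let φ1 : Equiv.Perm (Fin b × Bool) :=
    Function.Involutive.toPerm (fun p => (p.1, xor p.2 (z p.1))) (by rintro ⟨v, α⟩; simp)
  let φ2 : Equiv.Perm (C4 b × (Fin 4 → Bool)) :=
    Function.Involutive.toPerm (fun q => (q.1, fun j => xor (q.2 j) (z (q.1 j).1)))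
      (by rintro ⟨c, a⟩; simp)
  let φ3 : Equiv.Perm (C4 b × Bool × Fin g) := Equiv.prodCongrRight fun c => sh (s c) (π c)
  let φ4 : Equiv.Perm (C4 b × Option (Fin g)) := Equiv.prodCongrRight σ
  let ψ : Vx b g ≃ Vx b g := Equiv.sumCongr φ1 (Equiv.sumCongr φ2 (Equiv.sumCongr φ3 φ4))
  refine ⟨ψ, ?_, ?_⟩
  · rintro (p | q | r | t) <;> rfl
  · have key : ∀ x x', rel vl P' (ψ x) (ψ x') ↔ rel 0 P x x' := by
      rintro (⟨v, α⟩ | ⟨c, a⟩ | ⟨c, e, u⟩ | ⟨c, t⟩) (⟨v', α'⟩ | ⟨c', a'⟩ | ⟨c', e', u'⟩ | ⟨c', t'⟩)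
      · exact Iff.rfl
      · show ((∃ j, (c' j).1 = v) ∧ ∀ j, (c' j).1 = v → xor (a' j) (z (c' j).1) = xor α (z v)) ↔
          ((∃ j, (c' j).1 = v) ∧ ∀ j, (c' j).1 = v → a' j = α)
        refine and_congr_right fun _ => forall_congr' fun j => ?_
        constructor
        · intro h4 h5
          have h6 := h4 h5
          rw [h5] at h6
          simpa using h6
        · intro h4 h5
          rw [h4 h5, h5]
      · exact Iff.rfl
      · exact Iff.rfl
      · exact Iff.rfl
      · exact Iff.rfl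
      · show (c' = c ∧ bz (xor e' (s c')) = par (fun j => xor (a j) (z (c j).1)) + vl c) ↔
          (c' = c ∧ bz e' = par a + 0)
        refine and_congr_right fun hcc => ?_
        subst hcc
        rw [par_xor a fun j => z (c' j).1]
        have h1 := hs c'
        have h2 : bz (xor e' (s c')) = bz e' + bz (s c') := by
          cases e' <;> cases s c' <;> decide
        rw [h2, h1]
        have h3 : ∀ p q r t : ZMod 2, p + (q + r) = t + q + r ↔ p = t + 0 := by decide
        exact h3 _ _ _ _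
      · exact Iff.rfl
      · exact Iff.rfl
      · exact Iff.rfl
      · exact Iff.rfl
      · show (c' = c ∧ P' c (xor e (s c)) (π c e u) (σ c' t')) ↔ (c' = c ∧ P c e u t')
        refine and_congr_right fun hcc => ?_
        subst hcc
        exact hπ _ _ _ _
      · exact Iff.rfl
      · exact Iff.rfl
      · exact Iff.rfl
      · exact Iff.rfl
    intro x x'
    unfold gr
    rw [SimpleGraph.fromRel_adj, SimpleGraph.fromRel_adj, key, key, ψ.injective.ne_iff]

end Pool.Agent.Q329.GF
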