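import Pool.Agent.Q329.GF.Gad
import Pool.Agent.Q329.UL.Core

/-! Hiding the switches in random faults (helper329). -/

open scoped Classical
open Finset

set_option autoImplicit false

namespace Pool.Agent.Q329.GF

open H630VC H630XR
open H630GI (bz par vl par_xor oddSat_iff dg pad pad_iso iso_pad)
open Pool.Agent.Y630.TF (host host_true)

variable {b g : ℕ}

/-- the pairs of different vertices of the two graphs -/
abbrev Ps (N : ℕ) : Type := Bool × {e : Sym2 (Fin N) // ¬ e.IsDiag}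

/-- the graph number `k` -/
def graph {N : ℕ} (z : Ps N → Bool) (k : Bool) : SimpleGraph (Fin N) :=
  SimpleGraph.fromEdgeSet {e | ∃ h : ¬ e.IsDiag, z (k, ⟨e, h⟩) = true}

/-- the ends of the switches -/
def vA {s : ℕ} (c : C4 b) (ε : Bool) (u : Fin g) : Fin s ⊕ Vx b g := .inr (.inr (.inr (.inl (c, ε, u))))
def vB {s : ℕ} (c : C4 b) (t : Option (Fin g)) : Fin s ⊕ Vx b g := .inr (.inr (.inr (.inr (c, t))))

theorem vA_ne_vB {s : ℕ} (c c' : C4 b) (ε : Bool) (u : Fin g) (t : Option (Fin g)) :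
    (vA c ε u : Fin s ⊕ Vx b g) ≠ vB c' t := by simp [vA, vB]

theorem vA_inj {s : ℕ} {c c' : C4 b} {ε ε' : Bool} {u u' : Fin g}
    (h : (vA c ε u : Fin s ⊕ Vx b g) = vA c' ε' u') : c = c' ∧ ε = ε' ∧ u = u' := by
  simpa [vA] using h

theorem vB_inj {s : ℕ} {c c' : C4 b} {t t' : Option (Fin g)}
    (h : (vB c t : Fin s ⊕ Vx b g) = vB c' t') : c = c' ∧ t = t' := by
  simpa [vB] using h

variable [NeZero g] {s N : ℕ} (e : Fin s ⊕ Vx b g ≃ Fin N)

/-- the places of the switches -/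
def slot (ε : Bool) : (C4 b × Bool) × (Fin g × Fin g) ↪ Ps N where
  toFun x := (x.1.2, ⟨s(e (vA x.1.1 ε x.2.1), e (vB x.1.1 (some x.2.2))), by
    rw [Sym2.mk_isDiag_iff]
    exact fun h => vA_ne_vB _ _ _ _ _ (e.injective h)⟩)
  inj' := by
    rintro ⟨⟨c, k⟩, u, t⟩ ⟨⟨c', k'⟩, u', t'⟩ h
    simp only [Prod.mk.injEq, Subtype.mk.injEq, Sym2.eq_iff, e.injective.eq_iff] at h
    obtain ⟨h1, h2 | h2⟩ := h
    · obtain ⟨h3, -, h4⟩ := vA_inj h2.1
      obtain ⟨-, h5⟩ := vB_inj h2.2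
      rw [h1, h3, h4, Option.some.inj h5]
    · exact absurd h2.1 (vA_ne_vB _ _ _ _ _)

/-- the right-hand sides -/
def wt (b : ℕ) (k : Bool) : C4 b → ZMod 2 := if k = true then vl else 0

/-- the fixed part -/
noncomputable def base (P0 : C4 b → Bool → Fin g → Option (Fin g) → Prop) : Ps N → Bool :=
  fun x => decide (x.2.1 ∈ ((pad s (db b g) tc (gr (wt b x.1) P0)).comap e.symm).edgeSet)

theorem rel_or (w : C4 b → ZMod 2) (P0 Q : C4 b → Bool → Fin g → Option (Fin g) → Prop)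
    (x x' : Vx b g) : rel w (fun c ε u t => P0 c ε u t ∨ Q c ε u t) x x' ↔ rel w P0 x x' ∨
      ∃ c ε u t, Q c ε u t ∧ x = .inr (.inr (.inl (c, ε, u))) ∧ x' = .inr (.inr (.inr (c, t))) := by
  rcases x with ⟨v, α⟩ | ⟨c, a⟩ | ⟨c, e, u⟩ | ⟨c, t⟩ <;>
  rcases x' with ⟨v', α'⟩ | ⟨c', a'⟩ | ⟨c', e', u'⟩ | ⟨c', t'⟩ <;>
    simp only [rel, Sum.inr.injEq, Sum.inl.injEq, reduceCtorEq, and_false, false_and, exists_false,
      or_false, false_or, Prod.mk.injEq]
  constructor
  · rintro ⟨h1, h2 | h2⟩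
    · exact Or.inl ⟨h1, h2⟩
    · exact Or.inr ⟨c, e, u, t', h2, ⟨rfl, rfl, rfl⟩, h1, rfl⟩
  · rintro (⟨h1, h2⟩ | ⟨c1, e1, u1, t1, h1, ⟨rfl, rfl, rfl⟩, rfl, rfl⟩)
    · exact ⟨h1, Or.inl h2⟩
    · exact ⟨rfl, Or.inr h1⟩

theorem pad_or (w : C4 b → ZMod 2) (P0 Q : C4 b → Bool → Fin g → Option (Fin g) → Prop)
    (x x' : Fin s ⊕ Vx b g) :
    (pad s (db b g) tc (gr w fun c ε u t => P0 c ε u t ∨ Q c ε u t)).Adj x x' ↔
      (pad s (db b g) tc (gr w P0)).Adj x x' ∨
      ∃ c ε u t, Q c ε u t ∧ ((x = vA c ε u ∧ x' = vB c t) ∨ (x' = vA c ε u ∧ x = vB c t)) := by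
  rcases x with a | x <;> rcases x' with a' | x'
  · constructor
    · exact fun h => Or.inl h
    · rintro (h | ⟨c, ε, u, t, -, h | h⟩)
      · exact h
      · exact absurd h.1 (by simp [vA])
      · exact absurd h.1 (by simp [vA])
  · constructor
    · exact fun h => Or.inl h
    · rintro (h | ⟨c, ε, u, t, -, h | h⟩)
      · exact h
      · exact absurd h.1 (by simp [vA])
      · exact absurd h.2 (by simp [vB])
  · constructor
    · exact fun h => Or.inl h
    · rintro (h | ⟨c, ε, u, t, -, h | h⟩)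
      · exact h
      · exact absurd h.2 (by simp [vB])
      · exact absurd h.1 (by simp [vA])
  · show (gr w fun c ε u t => P0 c ε u t ∨ Q c ε u t).Adj x x' ↔ (gr w P0).Adj x x' ∨ _
    unfold gr
    rw [SimpleGraph.fromRel_adj, SimpleGraph.fromRel_adj, rel_or, rel_or]
    constructor
    · rintro ⟨h1, (h2 | ⟨c, ε, u, t, h2, h3, h4⟩) | (h2 | ⟨c, ε, u, t, h2, h3, h4⟩)⟩
      · exact Or.inl ⟨h1, Or.inl h2⟩
      · exact Or.inr ⟨c, ε, u, t, h2, Or.inl ⟨by rw [h3]; rfl, by rw [h4]; rfl⟩⟩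
      · exact Or.inl ⟨h1, Or.inr h2⟩
      · exact Or.inr ⟨c, ε, u, t, h2, Or.inr ⟨by rw [h3]; rfl, by rw [h4]; rfl⟩⟩
    · rintro (⟨h1, h2⟩ | ⟨c, ε, u, t, h2, h3 | h3⟩)
      · exact ⟨h1, h2.imp Or.inl Or.inl⟩
      · have e1 := Sum.inr.inj h3.1
        have e2 := Sum.inr.inj h3.2
        exact ⟨by rw [e1, e2]; simp, Or.inl (Or.inr ⟨c, ε, u, t, h2, e1, e2⟩)⟩
      · have e1 := Sum.inr.inj h3.1
        have e2 := Sum.inr.inj h3.2
        exact ⟨by rw [e1, e2]; simp, Or.inr (Or.inr ⟨c, ε, u, t, h2, e1, e2⟩)⟩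

/-- the switches that are closed -/
def PP (P0 : C4 b → Bool → Fin g → Option (Fin g) → Prop) (ε : Bool)
    (τ : C4 b × Bool → Fin g × Fin g) (y : C4 b × Bool → Bool) (k : Bool) :
    C4 b → Bool → Fin g → Option (Fin g) → Prop :=
  fun c ε' u t => P0 c ε' u t ∨
    (y (c, k) = true ∧ ε' = ε ∧ u = (τ (c, k)).1 ∧ t = some (τ (c, k)).2)

theorem graph_host (P0 : C4 b → Bool → Fin g → Option (Fin g) → Prop) (ε : Bool)
    (τ : C4 b × Bool → Fin g × Fin g) (y : C4 b × Bool → Bool) (k : Bool) :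
    graph (host (slot e ε) (base e P0) τ y) k =
      (pad s (db b g) tc (gr (wt b k) (PP P0 ε τ y k))).comap e.symm := by
  ext a a'
  obtain ⟨x, rfl⟩ := e.surjective a
  obtain ⟨x', rfl⟩ := e.surjective a'
  rw [SimpleGraph.comap_adj, e.symm_apply_apply, e.symm_apply_apply]
  unfold PP
  rw [pad_or]
  unfold graph
  rw [SimpleGraph.fromEdgeSet_adj, Set.mem_setOf_eq]
  have hbase : ∀ h : ¬ (s(e x, e x') : Sym2 (Fin N)).IsDiag,
      base e P0 (k, ⟨s(e x, e x'), h⟩) = true ↔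
        (pad s (db b g) tc (gr (wt b k) P0)).Adj x x' := by
    intro h
    unfold base
    rw [decide_eq_true_iff, SimpleGraph.mem_edgeSet, SimpleGraph.comap_adj, e.symm_apply_apply,
      e.symm_apply_apply]
  constructor
  · rintro ⟨⟨h, h1⟩, h2⟩
    rw [host_true] at h1
    rcases h1 with h1 | ⟨⟨c, k'⟩, h3, h4⟩
    · exact Or.inl ((hbase h).1 h1)
    · right
      have h5 := Prod.mk.inj h4
      obtain rfl : k' = k := h5.1
      have h6 := Subtype.mk.inj h5.2
      rw [Sym2.eq_iff, e.injective.eq_iff, e.injective.eq_iff, e.injective.eq_iff,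
        e.injective.eq_iff] at h6
      refine ⟨c, ε, (τ (c, k')).1, some (τ (c, k')).2, ⟨h3, rfl, rfl, rfl⟩, ?_⟩
      rcases h6 with h6 | h6
      · exact Or.inl ⟨h6.1.symm, h6.2.symm⟩
      · exact Or.inr ⟨h6.1.symm, h6.2.symm⟩
  · rintro (h | ⟨c, ε', u, t, ⟨h1, rfl, rfl, rfl⟩, h2⟩)
    · have hne : e x ≠ e x' := e.injective.ne h.ne
      have hd : ¬ (s(e x, e x') : Sym2 (Fin N)).IsDiag := by rwa [Sym2.mk_isDiag_iff]
      exact ⟨⟨hd, host_true.2 (Or.inl ((hbase hd).2 h))⟩, hne⟩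
    · have hne : e x ≠ e x' := by
        refine e.injective.ne ?_
        rcases h2 with h2 | h2
        · rw [h2.1, h2.2]
          exact vA_ne_vB _ _ _ _ _
        · rw [h2.1, h2.2]
          exact (vA_ne_vB _ _ _ _ _).symm
      have hd : ¬ (s(e x, e x') : Sym2 (Fin N)).IsDiag := by rwa [Sym2.mk_isDiag_iff]
      refine ⟨⟨hd, host_true.2 (Or.inr ⟨(c, k), h1, ?_⟩)⟩, hne⟩
      refine Prod.ext rfl (Subtype.ext ?_)
      show s(e (vA c ε' (τ (c, k)).1), e (vB c (some (τ (c, k)).2))) = s(e x, e x')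
      rcases h2 with h2 | h2
      · rw [h2.1, h2.2]
      · rw [h2.1, h2.2, Sym2.eq_swap]

/-- isomorphisms -/
theorem host_sat (hs : Fintype.card (Co b) * (db b g + 1) < s)
    (P0 : C4 b → Bool → Fin g → Option (Fin g) → Prop) (ε : Bool)
    (τ : C4 b × Bool → Fin g × Fin g) (y : C4 b × Bool → Bool)
    (h : Nonempty (graph (host (slot e ε) (base e P0) τ y) false ≃g
      graph (host (slot e ε) (base e P0) τ y) true)) :
    ∃ z : Fin b → Bool, ∀ c, (∃ u v, PP P0 ε τ y false c false u v) →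
      (∀ e' u v, PP P0 ε τ y true c e' u v → e' = false) → OddSat z c := by
  rw [graph_host, graph_host] at h
  obtain ⟨φ⟩ := h
  obtain ⟨ψ, h1, h2⟩ := pad_iso tc _ tc_lt hs _ _ (fun x => dg_gr _ _ x) (fun x => dg_gr _ _ x)
    (((SimpleGraph.Iso.comap e.symm _).symm.trans φ).trans (SimpleGraph.Iso.comap e.symm _))
  exact sat_of_hom _ _ ψ (fun x => tc_inj (h1 x)) (fun x x' hx => h2 x x' hx)

theorem host_iso (P0 : C4 b → Bool → Fin g → Option (Fin g) → Prop) (ε : Bool)
    (τ : C4 b × Bool → Fin g × Fin g) (y : C4 b × Bool → Bool) (z : Fin b → Bool)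
    (h : ∀ c : C4 b, ∀ s' : Bool, bz s' = par (fun j => z (c j).1) + vl c →
      ∃ (π : Bool → Equiv.Perm (Fin g)) (σ : Equiv.Perm (Option (Fin g))),
        ∀ e' u v, PP P0 ε τ y true c (xor e' s') (π e' u) (σ v) ↔ PP P0 ε τ y false c e' u v) :
    Nonempty (graph (host (slot e ε) (base e P0) τ y) false ≃g
      graph (host (slot e ε) (base e P0) τ y) true) := by
  rw [graph_host, graph_host]
  obtain ⟨ψ, h1, h2⟩ := iso_of_sat _ _ z h
  obtain ⟨φ⟩ := iso_pad (s := s) (d := db b g) tc _ _ ψ (fun x => by unfold tc; rw [h1]) h2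
  exact ⟨((SimpleGraph.Iso.comap e.symm _).trans φ).trans (SimpleGraph.Iso.comap e.symm _).symm⟩

theorem odd_zero {z : Fin b → Bool} {c : C4 b} (h : OddSat z c) {s' : Bool}
    (hs : bz s' = par (fun j => z (c j).1) + vl c) : s' = false := by
  rw [oddSat_iff] at h
  rw [h] at hs
  have h1 : ∀ p : ZMod 2, p + p = 0 := by decide
  rw [h1] at hs
  cases s'
  · rfl
  · exact absurd hs (by decide)

/-- the bits of a system: clauses close switches -/
noncomputable def enc1 (F : Finset (C4 b)) : C4 b × Bool → Bool := fun x => decide (x.1 ∈ F)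
/-- the bits of a system: clauses open switches -/
noncomputable def enc2 (F : Finset (C4 b)) : C4 b × Bool → Bool := fun x => decide (x.1 ∉ F)

/-- no further edges -/
def P1 (b g : ℕ) : C4 b → Bool → Fin g → Option (Fin g) → Prop := fun _ _ _ _ => False
/-- a fixed edge -/
def P2 (b g : ℕ) [NeZero g] : C4 b → Bool → Fin g → Option (Fin g) → Prop :=
  fun _ ε u t => ε = false ∧ u = 0 ∧ t = none

theorem sat1 (hs : Fintype.card (Co b) * (db b g + 1) < s) (F : Finset (C4 b))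
    (τ : C4 b × Bool → Fin g × Fin g)
    (h : Nonempty (graph (host (slot e false) (base e (P1 b g)) τ (enc1 F)) false ≃g
      graph (host (slot e false) (base e (P1 b g)) τ (enc1 F)) true)) :
    ∃ z : Fin b → Bool, ∀ c ∈ F, OddSat z c := by
  obtain ⟨z, hz⟩ := host_sat e hs _ _ τ _ h
  refine ⟨z, fun c hc => hz c ⟨(τ (c, false)).1, some (τ (c, false)).2,
    Or.inr ⟨by simpa [enc1] using hc, rfl, rfl, rfl⟩⟩ ?_⟩
  rintro e' u v (h1 | h1)
  · exact h1.elim
  · exact h1.2.1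

theorem iso1 (F : Finset (C4 b)) (τ : C4 b × Bool → Fin g × Fin g)
    (h : ∃ z : Fin b → Bool, ∀ c ∈ F, OddSat z c) :
    Nonempty (graph (host (slot e false) (base e (P1 b g)) τ (enc1 F)) false ≃g
      graph (host (slot e false) (base e (P1 b g)) τ (enc1 F)) true) := by
  obtain ⟨z, hz⟩ := h
  refine host_iso e _ _ τ _ z fun c s' hs' => ?_
  by_cases hc : c ∈ F
  · obtain rfl := odd_zero (hz c hc) hs'
    refine ⟨fun _ => Equiv.swap (τ (c, false)).1 (τ (c, true)).1,
      Equiv.swap (some (τ (c, false)).2) (some (τ (c, true)).2), fun e' u v => ?_⟩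
    simp only [PP, P1, false_or, enc1, hc, decide_true, true_and, Bool.xor_false,
      Equiv.swap_apply_eq_iff, Equiv.swap_apply_right]
  · refine ⟨fun _ => Equiv.refl _, Equiv.refl _, fun e' u v => ?_⟩
    simp [PP, P1, enc1, hc]

theorem sat2 (hs : Fintype.card (Co b) * (db b g + 1) < s) (F : Finset (C4 b))
    (τ : C4 b × Bool → Fin g × Fin g)
    (h : Nonempty (graph (host (slot e true) (base e (P2 b g)) τ (enc2 F)) false ≃g
      graph (host (slot e true) (base e (P2 b g)) τ (enc2 F)) true)) :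
    ∃ z : Fin b → Bool, ∀ c ∈ F, OddSat z c := by
  obtain ⟨z, hz⟩ := host_sat e hs _ _ τ _ h
  refine ⟨z, fun c hc => hz c ⟨0, none, Or.inl ⟨rfl, rfl, rfl⟩⟩ ?_⟩
  rintro e' u v (h1 | h1)
  · exact h1.1
  · exact absurd h1.1 (by simp [enc2, hc])

theorem iso2 (F : Finset (C4 b)) (τ : C4 b × Bool → Fin g × Fin g)
    (h : ∃ z : Fin b → Bool, ∀ c ∈ F, OddSat z c) :
    Nonempty (graph (host (slot e true) (base e (P2 b g)) τ (enc2 F)) false ≃g
      graph (host (slot e true) (base e (P2 b g)) τ (enc2 F)) true) := by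
  obtain ⟨z, hz⟩ := h
  refine host_iso e _ _ τ _ z fun c s' hs' => ?_
  by_cases hc : c ∈ F
  · obtain rfl := odd_zero (hz c hc) hs'
    refine ⟨fun _ => Equiv.refl _, Equiv.refl _, fun e' u v => ?_⟩
    simp [PP, P2, enc2, hc]
  · have inj : ∀ (σ : Equiv.Perm (Option (Fin g))) (v v' w : Option (Fin g)), σ v' = w →
        (σ v = w ↔ v = v') := by
      intro σ v v' w h1
      rw [← h1, σ.injective.eq_iff]
    have inj' : ∀ (σ : Equiv.Perm (Fin g)) (v v' w : Fin g), σ v' = w →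
        (σ v = w ↔ v = v') := by
      intro σ v v' w h1
      rw [← h1, σ.injective.eq_iff]
    cases s'
    · have e1 : Equiv.swap (some (τ (c, false)).2) (some (τ (c, true)).2) none = none :=
        Equiv.swap_apply_of_ne_of_ne (by simp) (by simp)
      have e2 := Equiv.swap_apply_left (some (τ (c, false)).2) (some (τ (c, true)).2)
      have e3 := Equiv.swap_apply_left (τ (c, false)).1 (τ (c, true)).1
      refine ⟨fun e' => cond e' (Equiv.swap (τ (c, false)).1 (τ (c, true)).1) (Equiv.refl _),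
        Equiv.swap (some (τ (c, false)).2) (some (τ (c, true)).2), fun e' u v => ?_⟩
      unfold PP P2 enc2
      rw [inj _ v _ _ e1, inj _ v _ _ e2]
      cases e'
      · simp [hc]
      · simp only [cond_true]
        rw [inj' _ u _ _ e3]
        simp [hc]
    · set σ : Equiv.Perm (Option (Fin g)) := (Equiv.swap none (some (τ (c, false)).2)).trans
        (Equiv.swap (some (τ (c, false)).2) (some (τ (c, true)).2)) with hσ
      have e1 : σ none = some (τ (c, true)).2 := by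
        rw [hσ, Equiv.trans_apply, Equiv.swap_apply_left, Equiv.swap_apply_left]
      have e2 : σ (some (τ (c, false)).2) = none := by
        rw [hσ, Equiv.trans_apply, Equiv.swap_apply_right]
        exact Equiv.swap_apply_of_ne_of_ne (by simp) (by simp)
      have e3 := Equiv.swap_apply_left (τ (c, false)).1 0
      have e4 := Equiv.swap_apply_left 0 (τ (c, true)).1
      refine ⟨fun e' => cond e' (Equiv.swap (τ (c, false)).1 0) (Equiv.swap 0 (τ (c, true)).1),
        σ, fun e' u v => ?_⟩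
      unfold PP P2 enc2
      rw [inj _ v _ _ e1, inj _ v _ _ e2]
      cases e'
      · simp only [cond_false]
        rw [inj' _ u _ _ e4]
        simp [hc]
      · simp only [cond_true]
        rw [inj' _ u _ _ e3]
        simp [hc]

end Pool.Agent.Q329.GF
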