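import Pool.Agent.Q329.GF.Host

/-! Graph isomorphism for circuits with unreliable negated inputs (helper329). -/

open scoped Classical
open Finset Filter

set_option autoImplicit false

namespace Pool.Agent.Q329.GF

open H630VC H630XR
open H630GI (bz par vl dich_ind avg_sat)
open Pool.Agent.Y630.TF (host host_true lit)
open Pool.Agent.Y630.NW (Flt)
open Pool.Agent.Y630.TG (places_bad)
open Pool.Agent.W969.MC (RC)
open Pool.Agent.Q329.UL (rc_fault)

theorem prog_of_fprog {I : Type*} {inp : Set (I → ℝ)} {l : List (I → ℝ)}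
    {q : List (List ((I → ℝ) × ℝ))} (h : FProg inp l q) (hq : q = []) : Prog inp l := by
  induction h with
  | nil => exact Prog.nil
  | input _ hf ih => exact Prog.input (ih hq) hf
  | gate _ hφ hf hg ih => exact Prog.gate (ih hq) hφ hf hg
  | free _ _ _ => exact absurd hq (by simp)

theorem prog_dual {I : Type*} {inp inp' : Set (I → ℝ)} (hi : ∀ f ∈ inp, (fun x => 1 - f x) ∈ inp')
    {l : List (I → ℝ)} (h : Prog inp l) : Prog inp' (l.map fun f x => 1 - f x) := by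
  induction h with
  | nil => exact Prog.nil
  | input _ hf ih => exact Prog.input ih (hi _ hf)
  | @gate l φ f g _ hφ hf hg ih =>
    have h1 := Prog.gate (φ := fun a c => 1 - φ (1 - a) (1 - c)) ih
      (fun a a' c c' ha hc => by
        have := hφ (1 - a') (1 - a) (1 - c') (1 - c) (by linarith) (by linarith)
        linarith)
      (List.mem_map.2 ⟨f, hf, rfl⟩) (List.mem_map.2 ⟨g, hg, rfl⟩)
    simpa using h1

/-- the averaging argument -/
theorem contra {Om : Type} [Fintype Om] [Nonempty Om] {b : ℕ} (hb : 1 ≤ b) (κ : ℝ) (m : ℕ)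
    (f : Om → Finset (C4 b) → ℝ)
    (hd : ∀ ω, avg (fun r : Fin m → C4 b => ind (1 ≤ f ω (univ.image r))) ≤
      κ + avg fun z : Fin b → Bool => ind (1 ≤ f ω (oddFormula z)))
    (h1 : ∀ F : Finset (C4 b), (¬ ∃ z : Fin b → Bool, ∀ c ∈ F, OddSat z c) →
      3 * Fintype.card Om ≤ 4 * (univ.filter fun ω => 1 ≤ f ω F).card)
    (h2 : ∀ F : Finset (C4 b), (∃ z : Fin b → Bool, ∀ c ∈ F, OddSat z c) →
      3 * Fintype.card Om ≤ 4 * (univ.filter fun ω => f ω F < 1).card) :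
    3 / 4 * (1 - 2 ^ b / 2 ^ m) ≤ κ + 1 / 4 := by
  have hR : (0 : ℝ) < Fintype.card Om := by exact_mod_cast Fintype.card_pos
  have hne : Nonempty (Fin m → C4 b) := ⟨fun _ _ => (⟨0, hb⟩, true)⟩
  have hsum := Finset.sum_le_sum fun ω (_ : ω ∈ (univ : Finset Om)) => hd ω
  rw [Finset.sum_add_distrib, sum_const, card_univ, nsmul_eq_mul, ← avg_sum, ← avg_sum] at hsum
  have hA : (3 / 4 : ℝ) * Fintype.card Om * (1 - 2 ^ b / 2 ^ m) ≤
      avg (fun r : Fin m → C4 b => ∑ ω : Om, ind (1 ≤ f ω (univ.image r))) := by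
    have h3 : ∀ r : Fin m → C4 b, (3 / 4 : ℝ) * Fintype.card Om +
        (-((3 / 4 : ℝ) * Fintype.card Om)) * ind (¬ ¬ ∃ z : Fin b → Bool,
          ∀ c ∈ univ.image r, OddSat z c) ≤ ∑ ω : Om, ind (1 ≤ f ω (univ.image r)) := by
      intro r
      rw [← card_ind]
      by_cases hU : ∃ z : Fin b → Bool, ∀ c ∈ univ.image r, OddSat z c
      · have : ind (¬ ¬ ∃ z : Fin b → Bool, ∀ c ∈ univ.image r, OddSat z c) = 1 :=
          if_pos (not_not.2 hU)
        rw [this]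
        have h0 : (0 : ℝ) ≤ ((univ.filter fun ω => 1 ≤ f ω (univ.image r)).card : ℝ) :=
          Nat.cast_nonneg _
        linarith
      · have : ind (¬ ¬ ∃ z : Fin b → Bool, ∀ c ∈ univ.image r, OddSat z c) = 0 :=
          if_neg (not_not.2 hU)
        rw [this]
        have h4 := h1 _ hU
        have h5 : (3 : ℝ) * Fintype.card Om ≤
            4 * ((univ.filter fun ω => 1 ≤ f ω (univ.image r)).card : ℝ) := by exact_mod_cast h4
        linarith
    refine le_trans ?_ (avg_mono h3)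
    rw [avg_add, avg_const, avg_mul]
    have h4 := avg_sat (K := 4) (by norm_num) hb m
    nlinarith
  have hB : avg (fun z : Fin b → Bool => ∑ ω : Om, ind (1 ≤ f ω (oddFormula z))) ≤
      1 / 4 * Fintype.card Om := by
    have h3 : ∀ z : Fin b → Bool, ∑ ω : Om, ind (1 ≤ f ω (oddFormula z)) ≤
        1 / 4 * Fintype.card Om := by
      intro z
      rw [← card_ind]
      have h4 := h2 (oddFormula z) ⟨z, fun c hc => (mem_filter.1 hc).2⟩
      have h5 := card_filter_add_card_filter_not (s := (univ : Finset Om))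
        (fun ω => f ω (oddFormula z) < 1)
      simp only [not_lt] at h5
      rw [card_univ] at h5
      have h6 : (((univ.filter fun ω => f ω (oddFormula z) < 1).card : ℕ) : ℝ) +
          ((univ.filter fun ω => 1 ≤ f ω (oddFormula z)).card : ℝ) = Fintype.card Om := by
        exact_mod_cast h5
      have h7 : (3 : ℝ) * Fintype.card Om ≤
          4 * ((univ.filter fun ω => f ω (oddFormula z) < 1).card : ℝ) := by exact_mod_cast h4
      linarith
    calc _ ≤ avg (fun _ : Fin b → Bool => (1 / 4 * Fintype.card Om : ℝ)) := avg_mono h3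
      _ = _ := avg_const _
  have h3 : (Fintype.card Om : ℝ) * (3 / 4 * (1 - 2 ^ b / 2 ^ m)) ≤
      Fintype.card Om * (κ + 1 / 4) := by
    calc _ = (3 / 4 : ℝ) * Fintype.card Om * (1 - 2 ^ b / 2 ^ m) := by ring
      _ ≤ _ := (hA.trans hsum).trans (add_le_add_right hB _)
      _ = _ := by ring
  exact le_of_mul_le_mul_left h3 hR

/-- the number of vertices -/
theorem size_lt (b g : ℕ) (hb : 1 ≤ b) (hg : 1 ≤ g) :
    Fintype.card (Co b) * (db b g + 1) + Fintype.card (Vx b g) < 14000 * b ^ 8 * g := by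
  have h1 : Fintype.card (Co b) = b + 48 * b ^ 4 := by
    rw [Fintype.card_sum, Fintype.card_prod, card_c4, Fintype.card_fin, Fintype.card_fin]
    ring
  have h2 : Fintype.card (Vx b g) = 2 * b + 256 * b ^ 4 + 32 * b ^ 4 * g + 16 * b ^ 4 * (g + 1) := by
    simp only [Fintype.card_sum, Fintype.card_prod, card_c4, Fintype.card_fin, Fintype.card_bool,
      Fintype.card_fun, Fintype.card_option]
    ring
  have hb4 : 1 ≤ b ^ 4 := Nat.one_le_pow _ _ hb
  have hbb : b ≤ b ^ 4 := by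
    calc b = b ^ 1 := (pow_one _).symm
      _ ≤ b ^ 4 := Nat.pow_le_pow_right hb (by norm_num)
  have h8 : b ^ 8 = b ^ 4 * b ^ 4 := by ring
  rw [h1, h2, h8]
  unfold db
  set y := b ^ 4 with hy
  have e0 : y ≤ y * g := Nat.le_mul_of_pos_right _ hg
  have e0' : g ≤ y * g := Nat.le_mul_of_pos_left _ hb4
  have e1 : (b + 48 * y) * (256 * y + 2 * b + 3 * g + 17 + 1) ≤ 49 * y * (279 * (y * g)) := by
    apply Nat.mul_le_mul <;> nlinarith
  have e2 : 2 * b + 256 * y + 32 * y * g + 16 * y * (g + 1) ≤ 322 * (y * g) := by nlinarith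
  have e3 : y * g ≤ y * (y * g) := Nat.le_mul_of_pos_left _ hb4
  have e5 : 1 ≤ y * (y * g) := Nat.mul_pos hb4 (Nat.mul_pos hb4 hg)
  calc (b + 48 * y) * (256 * y + 2 * b + 3 * g + 17 + 1) +
        (2 * b + 256 * y + 32 * y * g + 16 * y * (g + 1))
      ≤ 49 * y * (279 * (y * g)) + 322 * (y * g) := Nat.add_le_add e1 e2
    _ = 13671 * (y * (y * g)) + 322 * (y * g) := by ring
    _ < 14000 * (y * (y * g)) := by omega
    _ = 14000 * (y * y) * g := by ring

/-- the choice of the parameters -/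
theorem params (h ν : ℝ) (hh : 0 < h) (hν : 0 < ν) (hν1 : ν ≤ 1) (N₁ : ℕ) :
    ∃ δ : ℝ, 0 < δ ∧ ∃ N₀ : ℕ, ∀ N : ℕ, N₀ ≤ N → ∃ b g : ℕ, N₁ ≤ b ∧ 1 ≤ b ∧ 1 ≤ g ∧
      14000 * b ^ 8 * g ≤ N ∧
      ((2 * b : ℕ) : ℝ) ≤ (b : ℝ) ^ (((4 : ℕ) : ℝ) / 2 - 27 / 28) ∧
      (2 : ℝ) ^ ((N : ℝ) ^ δ) + 1 ≤ 2 ^ ((b : ℝ) ^ ν) ∧ (b : ℝ) ^ (-ν) ≤ 1 / 8 ∧
      (2 : ℝ) ^ b / 2 ^ (2 * b) ≤ 1 / 8 ∧
      ∀ D : ℝ, 0 ≤ D → D ≤ (N : ℝ) ^ (2 - h) → D * (Real.log (32 * b ^ 4) + 4) ≤ (g : ℝ) ^ 2 := by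
  set h' : ℝ := min h 1 with hh'
  have hh0 : 0 < h' := lt_min hh one_pos
  have hh1 : h' ≤ 1 := min_le_right _ _
  have hh2 : h' ≤ h := min_le_left _ _
  set ε : ℝ := h' / 32 with hε
  have hε0 : 0 < ε := by positivity
  have hε1 : 8 * ε ≤ 1 / 4 := by rw [hε]; linarith
  set δ : ℝ := ε * ν / 2 with hδ
  have hδ0 : 0 < δ := by positivity
  refine ⟨δ, hδ0, ?_⟩
  -- eventually in `b`
  have t1 : ∀ᶠ b : ℕ in atTop, (2 : ℝ) ≤ (b : ℝ) ^ (1 / 28 : ℝ) :=
    ((tendsto_rpow_atTop (by norm_num : (0 : ℝ) < 1 / 28)).comp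
      tendsto_natCast_atTop_atTop).eventually_ge_atTop 2
  have t2 : ∀ᶠ b : ℕ in atTop, (8 : ℝ) ≤ (b : ℝ) ^ ν :=
    ((tendsto_rpow_atTop hν).comp tendsto_natCast_atTop_atTop).eventually_ge_atTop _
  obtain ⟨B, hB⟩ := eventually_atTop.1 ((t1.and t2).and
    ((eventually_ge_atTop N₁).and (eventually_ge_atTop 3)))
  -- eventually in `N`
  have s1 : ∀ᶠ N : ℕ in atTop, (2 * B + 4 : ℝ) ≤ (N : ℝ) ^ ε :=
    ((tendsto_rpow_atTop hε0).comp tendsto_natCast_atTop_atTop).eventually_ge_atTop _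
  have s2 : ∀ᶠ N : ℕ in atTop, (28000 : ℝ) ≤ (N : ℝ) ^ (1 - 8 * ε) :=
    ((tendsto_rpow_atTop (by linarith : 0 < 1 - 8 * ε)).comp
      tendsto_natCast_atTop_atTop).eventually_ge_atTop _
  have s3 : ∀ᶠ N : ℕ in atTop, (8 : ℝ) ≤ (N : ℝ) ^ δ :=
    ((tendsto_rpow_atTop hδ0).comp
      tendsto_natCast_atTop_atTop).eventually_ge_atTop _
  have s4 : ∀ᶠ N : ℕ in atTop, 28000 ^ 2 * (8 + 4 * Real.log N) ≤ (N : ℝ) ^ (h / 2) := by
    have h1 : ∀ᶠ x : ℝ in Filter.atTop, ‖Real.log x‖ ≤ 1 / (8 * 28000 ^ 2) * ‖x ^ (h / 2 : ℝ)‖ :=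
      (isLittleO_log_rpow_atTop (by positivity : (0 : ℝ) < h / 2)).bound (by norm_num)
    have h2 := tendsto_natCast_atTop_atTop.eventually h1
    have h3 : ∀ᶠ N : ℕ in atTop, (16 * 28000 ^ 2 : ℝ) ≤ (N : ℝ) ^ (h / 2) :=
      ((tendsto_rpow_atTop (by positivity : 0 < h / 2)).comp
        tendsto_natCast_atTop_atTop).eventually_ge_atTop _
    filter_upwards [h2, h3] with N h4 h5
    have a1 : ‖(N : ℝ) ^ (h / 2 : ℝ)‖ = (N : ℝ) ^ (h / 2 : ℝ) :=
      Real.norm_of_nonneg (by positivity)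
    rw [a1] at h4
    have h6 := (le_abs_self _).trans h4
    have h7 : 28000 ^ 2 * (4 * Real.log N) ≤ 1 / 2 * (N : ℝ) ^ (h / 2) := by
      calc (28000 ^ 2 * (4 * Real.log N) : ℝ) ≤
          28000 ^ 2 * (4 * (1 / (8 * 28000 ^ 2) * (N : ℝ) ^ (h / 2 : ℝ))) := by gcongr
        _ = _ := by ring
    linarith
  obtain ⟨N₀, hN₀⟩ := eventually_atTop.1 ((s1.and s2).and ((s3.and s4).and (eventually_ge_atTop 1)))
  refine ⟨N₀, fun N hN => ?_⟩
  obtain ⟨⟨u1, u2⟩, ⟨u3, u5⟩, u4⟩ := hN₀ N hN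
  have hN1 : (1 : ℝ) ≤ N := by exact_mod_cast u4
  have hN0 : (0 : ℝ) < N := by linarith
  set x : ℝ := (N : ℝ) with hx
  set b : ℕ := ⌊x ^ ε⌋₊ with hb
  have b1 : (b : ℝ) ≤ x ^ ε := Nat.floor_le (by positivity)
  have b2 : x ^ ε < b + 1 := Nat.lt_floor_add_one _
  have b3 : x ^ ε / 2 ≤ b := by
    have : (0 : ℝ) ≤ B := Nat.cast_nonneg _
    linarith
  have b4 : B ≤ b := by
    have : (B : ℝ) ≤ b := by
      have : (0 : ℝ) ≤ B := Nat.cast_nonneg _
      linarith
    exact_mod_cast this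
  obtain ⟨⟨v1, v2⟩, v4, v5⟩ := hB b b4
  have hb1 : (3 : ℝ) ≤ b := by exact_mod_cast v5
  have hb0 : (0 : ℝ) < b := by linarith
  have b5 : (b : ℝ) ^ 8 ≤ x ^ (8 * ε) := by
    calc (b : ℝ) ^ 8 ≤ (x ^ ε) ^ 8 := pow_le_pow_left₀ hb0.le b1 8
      _ = x ^ (8 * ε) := by
          rw [← Real.rpow_natCast, ← Real.rpow_mul hN0.le]
          congr 1
          push_cast
          ring
  set g : ℕ := ⌊x / (14000 * b ^ 8)⌋₊ with hg
  have k1 : (g : ℝ) ≤ x / (14000 * b ^ 8) := Nat.floor_le (by positivity)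
  have k2 : x / (14000 * b ^ 8) < g + 1 := Nat.lt_floor_add_one _
  have k3 : x ^ (1 - 8 * ε) / 14000 ≤ x / (14000 * b ^ 8) := by
    have e1 : x ^ (1 - 8 * ε) = x / x ^ (8 * ε) := by
      rw [Real.rpow_sub hN0, Real.rpow_one]
    rw [e1, div_div, mul_comm _ (14000 : ℝ)]
    apply div_le_div_of_nonneg_left hN0.le (by positivity)
    exact mul_le_mul_of_nonneg_left b5 (by norm_num)
  have k4 : x ^ (1 - 8 * ε) / 28000 ≤ g := by
    have h1 : (2 : ℝ) ≤ x ^ (1 - 8 * ε) / 14000 := by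
      rw [le_div_iff₀ (by norm_num)]
      linarith
    have h2 : x ^ (1 - 8 * ε) / 28000 = x ^ (1 - 8 * ε) / 14000 / 2 := by ring
    rw [h2]
    linarith
  refine ⟨b, g, v4, by omega, ?_, ?_, ?_, ?_, ?_, ?_, ?_⟩
  · have h1 : (1 : ℝ) ≤ x ^ (1 - 8 * ε) / 28000 := by
      rw [le_div_iff₀ (by norm_num)]
      linarith
    have : (1 : ℝ) ≤ g := h1.trans k4
    exact_mod_cast this
  · have : ((14000 * b ^ 8 * g : ℕ) : ℝ) ≤ ((N : ℕ) : ℝ) := by
      push_cast
      rw [le_div_iff₀ (by positivity)] at k1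
      linarith
    exact Nat.cast_le.1 this
  · have e5 : (b : ℝ) ^ (((4 : ℕ) : ℝ) / 2 - 27 / 28) = b * (b : ℝ) ^ (1 / 28 : ℝ) := by
      have : ((4 : ℕ) : ℝ) / 2 - 27 / 28 = 1 + 1 / 28 := by push_cast; ring
      rw [this, Real.rpow_add hb0, Real.rpow_one]
    rw [e5]
    push_cast
    nlinarith
  · have e6 : 2 * x ^ δ ≤ (b : ℝ) ^ ν := by
      have f1 : (x ^ ε / 2) ^ ν ≤ (b : ℝ) ^ ν := Real.rpow_le_rpow (by positivity) b3 hν.le
      have f2 : (x ^ ε / 2) ^ ν = x ^ (ε * ν) / 2 ^ ν := by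
        rw [Real.div_rpow (by positivity) (by norm_num), ← Real.rpow_mul hN0.le]
      have f3 : (2 : ℝ) ^ ν ≤ 2 := by
        calc (2 : ℝ) ^ ν ≤ 2 ^ (1 : ℝ) := Real.rpow_le_rpow_of_exponent_le (by norm_num) hν1
          _ = 2 := Real.rpow_one _
      have f4 : x ^ (ε * ν) = x ^ δ * x ^ δ := by
        rw [← Real.rpow_add hN0]
        congr 1
        rw [hδ]
        ring
      have f6 : x ^ (ε * ν) / 2 ≤ x ^ (ε * ν) / 2 ^ ν :=
        div_le_div_of_nonneg_left (by positivity) (by positivity) f3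
      have f7 : x ^ δ * 8 ≤ x ^ (ε * ν) := by
        rw [f4]
        exact mul_le_mul_of_nonneg_left u3 (by positivity)
      have f8 : 0 ≤ x ^ δ := by positivity
      linarith
    have g1 : (1 : ℝ) ≤ 2 ^ (x ^ δ) := Real.one_le_rpow (by norm_num) (by positivity)
    calc (2 : ℝ) ^ (x ^ δ) + 1 ≤ 2 ^ (x ^ δ) * 2 := by linarith
      _ = 2 ^ (x ^ δ + 1) := by
          rw [Real.rpow_add (by norm_num)]
          norm_num
      _ ≤ 2 ^ ((b : ℝ) ^ ν) := by
          refine Real.rpow_le_rpow_of_exponent_le (by norm_num) ?_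
          linarith
  · rw [Real.rpow_neg hb0.le]
    have g2 : ((b : ℝ) ^ ν)⁻¹ ≤ (8 : ℝ)⁻¹ := inv_anti₀ (by norm_num) v2
    linarith
  · have g4 : (2 : ℝ) ^ b / 2 ^ (2 * b) = (2 ^ b)⁻¹ := by
      rw [two_mul, pow_add]
      field_simp
    rw [g4]
    have g5 : (8 : ℝ) ≤ 2 ^ b := by
      calc (8 : ℝ) = 2 ^ 3 := by norm_num
        _ ≤ 2 ^ b := pow_le_pow_right₀ (by norm_num) v5
    have g6 : ((2 : ℝ) ^ b)⁻¹ ≤ (8 : ℝ)⁻¹ := inv_anti₀ (by norm_num) g5
    linarith
  · intro D hD0 hD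
    have hlogb : Real.log b ≤ Real.log x := by
      apply Real.log_le_log hb0
      calc (b : ℝ) ≤ x ^ ε := b1
        _ ≤ x ^ (1 : ℝ) := Real.rpow_le_rpow_of_exponent_le hN1 (by linarith)
        _ = x := Real.rpow_one x
    have hlog32 : Real.log 32 ≤ 4 := by
      have : (32 : ℝ) = 2 ^ 5 := by norm_num
      rw [this, Real.log_pow]
      have := Real.log_two_lt_d9
      push_cast
      linarith
    have h1 : Real.log (32 * b ^ 4) + 4 ≤ 8 + 4 * Real.log x := by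
      rw [Real.log_mul (by norm_num) (by positivity), Real.log_pow]
      push_cast
      linarith
    have hlogx : 0 ≤ Real.log x := Real.log_nonneg hN1
    have h2 : (x ^ (1 - 8 * ε) / 28000) ^ 2 ≤ (g : ℝ) ^ 2 :=
      pow_le_pow_left₀ (by positivity) k4 2
    refine le_trans ?_ h2
    rw [div_pow, le_div_iff₀ (by positivity)]
    have h3 : (x ^ (1 - 8 * ε)) ^ 2 = x ^ (2 - h' / 2) := by
      rw [← Real.rpow_natCast, ← Real.rpow_mul hN0.le]
      congr 1
      rw [hε]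
      push_cast
      ring
    rw [h3]
    calc D * (Real.log (32 * b ^ 4) + 4) * 28000 ^ 2
        ≤ x ^ (2 - h) * (8 + 4 * Real.log x) * 28000 ^ 2 := by
          have : 0 ≤ 8 + 4 * Real.log x := by linarith
          refine mul_le_mul_of_nonneg_right ?_ (by positivity)
          calc D * (Real.log (32 * b ^ 4) + 4) ≤ D * (8 + 4 * Real.log x) :=
                mul_le_mul_of_nonneg_left h1 hD0
            _ ≤ x ^ (2 - h) * (8 + 4 * Real.log x) := mul_le_mul_of_nonneg_right hD this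
      _ = x ^ (2 - h) * (28000 ^ 2 * (8 + 4 * Real.log x)) := by ring
      _ ≤ x ^ (2 - h) * x ^ (h / 2) := mul_le_mul_of_nonneg_left u5 (by positivity)
      _ = x ^ (2 - h / 2) := by
          rw [← Real.rpow_add hN0]
          congr 1
          ring
      _ ≤ x ^ (2 - h' / 2) := Real.rpow_le_rpow_of_exponent_le hN1 (by linarith)

/-- the pair of graphs is isomorphic -/
def IsoP {N : ℕ} (z : Ps N → Bool) : Prop := Nonempty (graph z false ≃g graph z true)

/-- the main theorem -/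
theorem main (h : ℝ) (hh : 0 < h) : ∃ δ : ℝ, 0 < δ ∧ ∃ N₀ : ℕ, ∀ N : ℕ, N₀ ≤ N →
    ∀ D : ℕ, 1 ≤ D → (D : ℝ) ≤ (N : ℝ) ^ (2 - h) → ∀ (Acc : (Ps N → Bool) → Prop),
    ((∀ z, Acc z ↔ IsoP z) ∨ (∀ z, Acc z ↔ ¬ IsoP z)) →
    ∀ (R : Type) [Fintype R] [Nonempty R] (C : R → RC (Ps N × Bool)) (s : ℕ)
      (hT : ∀ ρ, (C ρ).T = ∅) (hs : ∀ ρ, (C ρ).S ≤ s)
      (h1 : ∀ z : Ps N → Bool, Acc z →
        (4 / 5 : ℝ) * (Fintype.card R * (D : ℝ) ^ Fintype.card (Ps N)) ≤
        ({s : R × (Ps N → Fin D) | (C s.1).acc (lit z (Flt s.2))}.ncard : ℝ))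
      (h2 : ∀ z : Ps N → Bool, ¬ Acc z →
        ({ρ : R | (C ρ).acc (lit z ∅)}.ncard : ℝ) ≤ 1 / 4 * Fintype.card R),
      (2 : ℝ) ^ ((N : ℝ) ^ δ) ≤ 3 * s + 2 := by
  obtain ⟨N₁, hN₁⟩ := dich_ind 4 (by norm_num) (27 / 28) (1 / 14) (by norm_num)
    (by norm_num)
  obtain ⟨δ, hδ, N₀, hN₀⟩ := params h (1 / 14) hh (by norm_num) (by norm_num) N₁
  refine ⟨δ, hδ, N₀, fun N hN D hD hDN Acc hAcc R _ _ C s hT hs h1 h2 => ?_⟩
  obtain ⟨b, g, c1, c2, c3, c4, c5, c6, c7, c8, c9⟩ := hN₀ N hN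
  by_contra hcon
  push Not at hcon
  have _ : NeZero g := ⟨by omega⟩
  have _ : NeZero b := ⟨by omega⟩
  have hsz := size_lt b g c2 c3
  obtain ⟨s', hs'⟩ : ∃ s', s' + Fintype.card (Vx b g) = N :=
    ⟨N - Fintype.card (Vx b g), by omega⟩
  have hcard : Fintype.card (Fin s' ⊕ Vx b g) = Fintype.card (Fin N) := by
    rw [Fintype.card_sum, Fintype.card_fin, Fintype.card_fin, hs']
  let e : Fin s' ⊕ Vx b g ≃ Fin N := Fintype.equivOfCardEq hcard
  have hs2 : Fintype.card (Co b) * (db b g + 1) < s' := by omega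
  have hX : (Fintype.card (C4 b × Bool) : ℝ) = 32 * b ^ 4 := by
    rw [Fintype.card_prod, card_c4, Fintype.card_bool]
    push_cast
    ring
  have hG : Fintype.card (Fin g × Fin g) = g ^ 2 := by
    rw [Fintype.card_prod, Fintype.card_fin]
    ring
  have hb0 : (0 : ℝ) < b := by exact_mod_cast c2
  have hbad : (Fintype.card (C4 b × Bool) : ℝ) * (1 - 1 / (D : ℝ)) ^
      Fintype.card (Fin g × Fin g) ≤ 1 / 40 := by
    refine places_bad (by omega) (by rw [hX]; positivity) ?_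
    rw [hX, hG]
    push_cast
    exact c9 D (Nat.cast_nonneg _) hDN
  have hd : ∀ l : List (Finset (C4 b) → ℝ), Prog (cnfInputs (Fin b) 4) l →
      (l.length : ℝ) ≤ 2 ^ ((N : ℝ) ^ δ) + 1 → ∀ f ∈ l,
      avg (fun ω : Fin (2 * b) → C4 b => ind (1 ≤ f (univ.image ω))) ≤
        (b : ℝ) ^ (-(1 / 14) : ℝ) + avg fun z : Fin b → Bool => ind (1 ≤ f (oddFormula z)) := by
    intro l hl hlen f hf
    exact hN₁ b c1 (2 * b) c5 l hl (hlen.trans c6) f hf
  have hne : Nonempty (C4 b × Bool) := ⟨(fun _ => (0, true), true)⟩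
  rcases hAcc with hAcc | hAcc
  · -- isomorphic pairs are accepted
    obtain ⟨l, hprog, hlen, f, hf, hdec⟩ := rc_fault (I := Finset (C4 b))
      (X := C4 b × Bool) (G := Fin g × Fin g)
      {f : Finset (C4 b) → ℝ | (fun F => 1 - f F) ∈ cnfInputs (Fin b) 4} enc2
      (fun x => by
        refine Or.inl ⟨x.1, ?_⟩
        funext F
        unfold Pool.Agent.H560R2.bit enc2
        by_cases hx : x.1 ∈ F <;> simp [hx])
      (fun c => Or.inr ⟨1 - c, rfl⟩)
      (fun F => ∃ z : Fin b → Bool, ∀ c ∈ F, OddSat z c)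
      (fun F => ¬ ∃ z : Fin b → Bool, ∀ c ∈ F, OddSat z c) (by omega : 0 < D)
      (slot e true) (base e (P2 b g)) C hT hbad
      (fun F hF τ => by
        refine h1 _ ((hAcc _).2 ?_)
        exact iso2 e F τ hF)
      (fun F hF τ => by
        refine h2 _ fun hA => hF ?_
        exact sat2 e hs2 F τ ((hAcc _).1 hA))
    have hlen2 : ∀ ω, ((l ω).length : ℝ) ≤ 3 * s + 2 := by
      intro ω
      have h3 := hlen ω
      have h4 := hs ω.1
      have h5 : (l ω).length ≤ 3 * s + 2 := by omega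
      exact_mod_cast h5
    have hdual : ∀ ω, Prog (cnfInputs (Fin b) 4)
        ((fun F => if 0 < 1 - f ω F then (1 : ℝ) else 0) ::
          (l ω).map fun f F => 1 - f F) := by
      intro ω
      have h3 := prog_dual (inp' := cnfInputs (Fin b) 4) (fun f hf => hf)
        (prog_of_fprog (hprog ω) rfl)
      have h4 : (fun F => 1 - f ω F) ∈ (l ω).map fun f F => 1 - f F :=
        List.mem_map.2 ⟨f ω, hf ω, rfl⟩
      exact Prog.gate (φ := fun a _ => if 0 < a then (1 : ℝ) else 0) h3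
        (fun a a' c c' ha _ => by
          show (if 0 < a then (1 : ℝ) else 0) ≤ if 0 < a' then 1 else 0
          split_ifs with h5 h6 h6
          · exact le_rfl
          · exact absurd (h5.trans_le ha) h6
          · norm_num
          · exact le_rfl) h4 h4
    have hiff : ∀ ω F, 1 ≤ (if 0 < 1 - f ω F then (1 : ℝ) else 0) ↔ f ω F < 1 := by
      intro ω F
      split_ifs with h5
      · simp only [le_refl, true_iff]
        linarith
      · constructor
        · intro h6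
          norm_num at h6
        · intro h6
          exact absurd (by linarith) h5
    have hc := contra c2 ((b : ℝ) ^ (-(1 / 14) : ℝ)) (2 * b)
      (fun ω F => if 0 < 1 - f ω F then (1 : ℝ) else 0)
      (fun ω => hd _ (hdual ω) (by
        rw [List.length_cons, List.length_map]
        push_cast
        have := hlen2 ω
        linarith) _ List.mem_cons_self)
      (fun F hF => by
        simp only [hiff]
        exact (hdec F).2 hF)
      (fun F hF => by
        have h3 := (hdec F).1 hF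
        have h4 : (univ.filter fun ω => (if 0 < 1 - f ω F then (1 : ℝ) else 0) < 1) =
            univ.filter fun ω => 1 ≤ f ω F := by
          ext ω
          simp only [mem_filter, mem_univ, true_and]
          rw [← not_le, hiff, not_lt]
        rw [h4]
        exact h3)
    linarith
  · -- non-isomorphic pairs are accepted
    obtain ⟨l, hprog, hlen, f, hf, hdec⟩ := rc_fault (I := Finset (C4 b))
      (X := C4 b × Bool) (G := Fin g × Fin g) (cnfInputs (Fin b) 4) enc1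
      (fun x => by
        refine Or.inl ⟨x.1, ?_⟩
        funext F
        unfold Pool.Agent.H560R2.bit enc1
        by_cases hx : x.1 ∈ F <;> simp [hx])
      (fun c => Or.inr ⟨c, rfl⟩)
      (fun F => ¬ ∃ z : Fin b → Bool, ∀ c ∈ F, OddSat z c)
      (fun F => ∃ z : Fin b → Bool, ∀ c ∈ F, OddSat z c) (by omega : 0 < D)
      (slot e false) (base e (P1 b g)) C hT hbad
      (fun F hF τ => by
        refine h1 _ ((hAcc _).2 fun hI => hF ?_)
        exact sat1 e hs2 F τ hI)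
      (fun F hF τ => by
        refine h2 _ fun hA => (hAcc _).1 hA ?_
        exact iso1 e F τ hF)
    have hlen2 : ∀ ω, ((l ω).length : ℝ) ≤ 3 * s + 2 := by
      intro ω
      have h3 := hlen ω
      have h4 := hs ω.1
      have h5 : (l ω).length ≤ 3 * s + 2 := by omega
      exact_mod_cast h5
    have hc := contra c2 ((b : ℝ) ^ (-(1 / 14) : ℝ)) (2 * b) f
      (fun ω => hd _ (prog_of_fprog (hprog ω) rfl) (by
        have := hlen2 ω
        linarith) _ (hf ω))
      (fun F hF => (hdec F).1 hF) (fun F hF => (hdec F).2 hF)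
    linarith

end Pool.Agent.Q329.GF
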